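import Pool.Agent.Helper38.WM.St2

/-!
Project WM (helper38), module NUW: numerical consequence of the weighted Golod-Shafarevich inequality.
-/

set_option autoImplicit false

namespace Pool.Agent.Helper48.WM

open Pool.Agent.Helper38.WM

/-- the contribution of one generator of degree `δ` -/
theorem shift_le (b : ℕ → ℕ) (t : ℝ) (ht0 : 0 < t) (ht1 : t < 1) (hb : Monotone b) (δ N : ℕ)
    (hδ : 1 ≤ δ) :
    t ^ δ * ∑ m ∈ Finset.range (N + 1), (b m : ℝ) * t ^ m ≤
      (∑ n ∈ Finset.range N, (b (n + 1 - δ) : ℝ) * t ^ (n + 1)) + δ * b N * t ^ (N + 1) := by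
  classical
  have e0 : t ^ δ * ∑ m ∈ Finset.range (N + 1), (b m : ℝ) * t ^ m
      = ∑ m ∈ Finset.range (N + 1), (b m : ℝ) * t ^ (m + δ) := by
    rw [Finset.mul_sum]
    refine Finset.sum_congr rfl fun m _ => ?_
    rw [pow_add]
    ring
  rw [e0, ← Finset.sum_filter_add_sum_filter_not (Finset.range (N + 1)) (fun m => m + δ ≤ N)]
  apply add_le_add
  · have e1 : ∑ m ∈ (Finset.range (N + 1)).filter (fun m => m + δ ≤ N), (b m : ℝ) * t ^ (m + δ)
        = ∑ n ∈ ((Finset.range (N + 1)).filter (fun m => m + δ ≤ N)).image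
            (fun m => m + δ - 1), (b (n + 1 - δ) : ℝ) * t ^ (n + 1) := by
      rw [Finset.sum_image]
      · refine Finset.sum_congr rfl fun m _ => ?_
        have h1 : m + δ - 1 + 1 = m + δ := by omega
        have h2 : m + δ - 1 + 1 - δ = m := by omega
        rw [h2, h1]
      · intro x _ y _ hxy
        have hxy' : x + δ - 1 = y + δ - 1 := hxy
        omega
    rw [e1]
    apply Finset.sum_le_sum_of_subset_of_nonneg
    · intro n hn
      obtain ⟨m, hm, rfl⟩ := Finset.mem_image.1 hn
      have hm2 : m + δ ≤ N := (Finset.mem_filter.1 hm).2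
      rw [Finset.mem_range]
      omega
    · intro n _ _
      positivity
  · have hcard : ((Finset.range (N + 1)).filter (fun m => ¬ m + δ ≤ N)).card ≤ δ := by
      have h1 : (Finset.range (N + 1)).filter (fun m => ¬ m + δ ≤ N)
          ⊆ Finset.Ico (N + 1 - δ) (N + 1) := by
        intro m hm
        have hm1 := Finset.mem_range.1 (Finset.mem_filter.1 hm).1
        have hm2 := (Finset.mem_filter.1 hm).2
        rw [Finset.mem_Ico]
        omega
      have h2 := Finset.card_le_card h1
      rw [Nat.card_Ico] at h2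
      omega
    have h3 : ∀ m ∈ (Finset.range (N + 1)).filter (fun m => ¬ m + δ ≤ N),
        (b m : ℝ) * t ^ (m + δ) ≤ b N * t ^ (N + 1) := by
      intro m hm
      have hm1 := Finset.mem_range.1 (Finset.mem_filter.1 hm).1
      have hm2 := (Finset.mem_filter.1 hm).2
      have h4 : (b m : ℝ) ≤ b N := by
        exact_mod_cast hb (by omega : m ≤ N)
      have h5 : t ^ (m + δ) ≤ t ^ (N + 1) := pow_le_pow_of_le_one ht0.le ht1.le (by omega)
      exact mul_le_mul h4 h5 (by positivity) (by positivity)
    calc ∑ m ∈ (Finset.range (N + 1)).filter (fun m => ¬ m + δ ≤ N), (b m : ℝ) * t ^ (m + δ)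
        ≤ ((Finset.range (N + 1)).filter (fun m => ¬ m + δ ≤ N)).card • ((b N : ℝ) * t ^ (N + 1)) :=
          Finset.sum_le_card_nsmul _ _ _ h3
      _ = ((Finset.range (N + 1)).filter (fun m => ¬ m + δ ≤ N)).card * ((b N : ℝ) * t ^ (N + 1)) := by
          rw [nsmul_eq_mul]
      _ ≤ δ * ((b N : ℝ) * t ^ (N + 1)) := by
          apply mul_le_mul_of_nonneg_right _ (by positivity)
          exact_mod_cast hcard
      _ = δ * b N * t ^ (N + 1) := by ring

theorem hNUW : Pool.Agent.Helper38.WM.StNUW := by
  classical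
  intro X _ ι e d t b ht0 ht1 hd he hs hneg hb0 hmono hineq N hN
  have hfin : ∀ n : ℕ, {i | e i ≤ n}.Finite := by
    intro n
    have h1 := hs.tendsto_cofinite_zero
    have h2 : ∀ᶠ i in Filter.cofinite, t ^ e i < t ^ n :=
      h1.eventually (gt_mem_nhds (pow_pos ht0 n))
    rw [Filter.eventually_cofinite] at h2
    refine h2.subset fun i hi => ?_
    show ¬ t ^ e i < t ^ n
    rw [not_lt]
    exact pow_le_pow_of_le_one ht0.le ht1.le hi
  set c := ∑' i, t ^ e i with hc
  have hc0 : 0 ≤ c := tsum_nonneg fun i => (pow_pos ht0 _).le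
  set T := ∑ n ∈ Finset.range N, (b n : ℝ) * t ^ n with hTdef
  have hT : 0 ≤ T := Finset.sum_nonneg fun n _ => by positivity
  set S := ∑ n ∈ Finset.range (N + 1), (b n : ℝ) * t ^ n with hSdef
  have hST : S = T + b N * t ^ N := Finset.sum_range_succ _ _
  have hS : 0 ≤ S := Finset.sum_nonneg fun n _ => by positivity
  have hTS : T ≤ S := by
    rw [hST]
    have : 0 ≤ (b N : ℝ) * t ^ N := by positivity
    linarith
  have h1 : ∀ n ∈ Finset.range N, t ^ (n + 1) + ∑ x, (b (n + 1 - d x) : ℝ) * t ^ (n + 1) ≤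
      b (n + 1) * t ^ (n + 1) + ∑ i ∈ (hfin n).toFinset, (b (n + 1 - e i) : ℝ) * t ^ (n + 1) := by
    intro n _
    have h2 := hineq n (hfin n).toFinset (fun i => by simp)
    have h3 : (1 : ℝ) + ∑ x, (b (n + 1 - d x) : ℝ) ≤
        b (n + 1) + ∑ i ∈ (hfin n).toFinset, (b (n + 1 - e i) : ℝ) := by
      exact_mod_cast h2
    have h4 := mul_le_mul_of_nonneg_right h3 (pow_pos ht0 (n + 1)).le
    rw [add_mul, add_mul, Finset.sum_mul, Finset.sum_mul, one_mul] at h4
    exact h4
  have h2 := Finset.sum_le_sum h1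
  rw [Finset.sum_add_distrib, Finset.sum_add_distrib] at h2
  have h3 : ∑ n ∈ Finset.range N, ∑ i ∈ (hfin n).toFinset,
      (b (n + 1 - e i) : ℝ) * t ^ (n + 1) ≤ c * T := by
    calc ∑ n ∈ Finset.range N, ∑ i ∈ (hfin n).toFinset, (b (n + 1 - e i) : ℝ) * t ^ (n + 1)
        = ∑ n ∈ Finset.range N, ∑ i ∈ (hfin N).toFinset,
            (if e i ≤ n then (b (n + 1 - e i) : ℝ) * t ^ (n + 1) else 0) := by
          refine Finset.sum_congr rfl fun n hn => ?_
          rw [← Finset.sum_filter]
          refine Finset.sum_congr ?_ fun _ _ => rfl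
          ext i
          rw [Finset.mem_range] at hn
          simp only [Set.Finite.mem_toFinset, Finset.mem_filter]
          constructor
          · intro h
            have h' : e i ≤ n := h
            exact ⟨show e i ≤ N by omega, h'⟩
          · exact fun h => h.2
      _ = ∑ i ∈ (hfin N).toFinset, ∑ n ∈ Finset.range N,
            (if e i ≤ n then (b (n + 1 - e i) : ℝ) * t ^ (n + 1) else 0) := Finset.sum_comm
      _ ≤ ∑ i ∈ (hfin N).toFinset, t ^ e i * T := by
          refine Finset.sum_le_sum fun i _ => ?_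
          rw [← Finset.sum_filter, hTdef, Finset.mul_sum]
          have hei := he i
          have e1 : ∑ n ∈ (Finset.range N).filter (fun n => e i ≤ n),
              (b (n + 1 - e i) : ℝ) * t ^ (n + 1)
              = ∑ m ∈ ((Finset.range N).filter (fun n => e i ≤ n)).image
                  (fun n => n + 1 - e i), t ^ e i * ((b m : ℝ) * t ^ m) := by
            rw [Finset.sum_image]
            · refine Finset.sum_congr rfl fun n hn => ?_
              have hn2 : e i ≤ n := (Finset.mem_filter.1 hn).2
              have e2 : t ^ (n + 1) = t ^ e i * t ^ (n + 1 - e i) := by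
                rw [← pow_add]
                congr 1
                omega
              rw [e2]
              ring
            · intro x hx y hy hxy
              have hx2 : e i ≤ x := (Finset.mem_filter.1 hx).2
              have hy2 : e i ≤ y := (Finset.mem_filter.1 hy).2
              have hxy' : x + 1 - e i = y + 1 - e i := hxy
              omega
          rw [e1]
          apply Finset.sum_le_sum_of_subset_of_nonneg
          · intro m hm
            obtain ⟨n, hn, rfl⟩ := Finset.mem_image.1 hm
            have hn1 := Finset.mem_range.1 (Finset.mem_filter.1 hn).1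
            rw [Finset.mem_range]
            omega
          · intro m _ _
            positivity
      _ = (∑ i ∈ (hfin N).toFinset, t ^ e i) * T := by rw [Finset.sum_mul]
      _ ≤ c * T := by
          apply mul_le_mul_of_nonneg_right _ hT
          exact hs.sum_le_tsum _ fun i _ => (pow_pos ht0 _).le
  have h4 : ∑ n ∈ Finset.range N, (b (n + 1) : ℝ) * t ^ (n + 1) = S := by
    have h6 := Finset.sum_range_succ' (fun n => (b n : ℝ) * t ^ n) N
    simp only [hb0, Nat.cast_zero, zero_mul, add_zero] at h6
    exact h6.symm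
  have h5 : t ≤ ∑ n ∈ Finset.range N, t ^ (n + 1) := by
    have h6 : t ^ (0 + 1) ≤ ∑ n ∈ Finset.range N, t ^ (n + 1) :=
      Finset.single_le_sum (f := fun n => t ^ (n + 1)) (fun n _ => (pow_pos ht0 _).le)
        (Finset.mem_range.2 hN)
    simpa using h6
  rw [h4, Finset.sum_comm] at h2
  have h6 : (∑ x, t ^ d x) * S ≤
      (∑ x, ∑ n ∈ Finset.range N, (b (n + 1 - d x) : ℝ) * t ^ (n + 1))
        + (∑ x, (d x : ℝ)) * (b N * t ^ (N + 1)) := by
    rw [Finset.sum_mul, Finset.sum_mul, ← Finset.sum_add_distrib]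
    refine Finset.sum_le_sum fun x _ => ?_
    have h7 := shift_le b t ht0 ht1 hmono (d x) N (hd x)
    calc t ^ d x * S ≤ _ := h7
      _ = _ := by ring
  have h8 : c * T ≤ c * S := mul_le_mul_of_nonneg_left hTS hc0
  set D := ∑ x, (d x : ℝ) with hD
  have h9 : 0 ≤ (∑ x, t ^ d x - 1 - c) * S := mul_nonneg (by linarith) hS
  have h10 : t ≤ D * (b N * t ^ (N + 1)) := by nlinarith
  have h11 : 1 ≤ D * (b N * t ^ N) := by
    have h12 : t * 1 ≤ t * (D * (b N * t ^ N)) := by
      calc t * 1 = t := mul_one t
        _ ≤ D * (b N * t ^ (N + 1)) := h10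
        _ = t * (D * (b N * t ^ N)) := by rw [pow_succ]; ring
    exact le_of_mul_le_mul_left h12 ht0
  have hDn : 0 ≤ D := Finset.sum_nonneg fun x _ => Nat.cast_nonneg _
  have hD0 : 0 < D := by
    rcases hDn.lt_or_eq with h | h
    · exact h
    · rw [← h, zero_mul] at h11
      linarith
  rw [div_le_iff₀ hD0]
  linarith

end Pool.Agent.Helper48.WM
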